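import Pool.Agent.Results.MP_bc5e3f_an.NullSeq

/-!
# In a commutative separable Banach algebra that factors, `A · c₀(A)` can be meagre in `c₀(A)`
-/

set_option autoImplicit false

namespace Pool.Agent.Results.MP_bc5e3f_an.Meagre

open Filter Topology TopologicalSpace Pool.Agent.Helper841.BC
open Pool.Agent.Results.MP_bc5e3f_an.NullSeq
open scoped ZeroAtInfty

/-- A proper space has a finite quarter-net of its unit ball. -/
theorem exists_net4 (E : Type*) [NormedAddCommGroup E] [ProperSpace E] :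
    ∃ F : Set E, F.Finite ∧ (∀ f ∈ F, ‖f‖ ≤ 1) ∧ ∀ y : E, ‖y‖ ≤ 1 → ∃ f ∈ F, ‖y - f‖ ≤ 1 / 4 := by
  obtain ⟨t, hts, htf, hcov⟩ := (isCompact_closedBall (0 : E) 1).finite_cover_balls
    (by norm_num : (0 : ℝ) < 1 / 4)
  refine ⟨t, htf, fun f hf => ?_, fun y hy => ?_⟩
  · have := hts hf
    rwa [mem_closedBall_zero_iff] at this
  · have h1 := hcov (mem_closedBall_zero_iff.mpr hy)
    simp only [Set.mem_iUnion] at h1
    obtain ⟨f, hf, hyf⟩ := h1
    refine ⟨f, hf, ?_⟩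
    rw [Metric.mem_ball, dist_eq_norm] at hyf
    exact hyf.le

/-- The finite-dimensional obstruction. -/
theorem core (D : ℕ → Blk)
    (hD : ∀ i : ℕ, 1 + ∑ m ∈ Finset.range (i + 1), P m (((i : ℝ) + 1) ^ 2) ≤ (D i).n 1)
    (i m : ℕ) (him : m ≤ i) (α : Fin m → Alg (D i)) (M R : ℝ) (hR : 0 ≤ R)
    (hα : ∀ j, ‖α j‖ ≤ M) (F : Set (Alg (D i)))
    (hF : ∀ y : Alg (D i), ‖y‖ ≤ 1 → ∃ f ∈ F, ‖y - f‖ ≤ 1 / 2)
    (hrepF : ∀ f ∈ F, ∃ w : Fin m → Alg (D i), (∀ j, ‖w j‖ ≤ R) ∧ f = ∑ j, α j * w j)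
    (hb : M * (2 * R) ≤ ((i : ℝ) + 1) ^ 2) : False := by
  have hball := rep_ball α hR F hF hrepF
  have hall : ∀ y : Alg (D i), ∃ w : Fin m → Alg (D i),
      (∀ j, ‖w j‖ ≤ ‖y‖ * (2 * R)) ∧ y = ∑ j, α j * w j := by
    intro y
    rcases (norm_nonneg y).eq_or_lt with h0 | h0
    · refine ⟨0, fun j => ?_, ?_⟩
      · rw [← h0]; simp
      · rw [norm_eq_zero.mp h0.symm]; simp
    · have h1 : ‖(((‖y‖)⁻¹ : ℝ) : ℂ) • y‖ ≤ 1 := by
        rw [norm_smul, Complex.norm_real, Real.norm_of_nonneg (inv_nonneg.mpr h0.le),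
          inv_mul_cancel₀ h0.ne']
      obtain ⟨w, hw, hyw⟩ := hball _ h1
      refine ⟨fun j => ((‖y‖ : ℝ) : ℂ) • w j, fun j => ?_, ?_⟩
      · rw [norm_smul, Complex.norm_real, Real.norm_of_nonneg h0.le]
        exact mul_le_mul_of_nonneg_left (hw j) h0.le
      · have h3 : y = ((‖y‖ : ℝ) : ℂ) • ((((‖y‖)⁻¹ : ℝ) : ℂ) • y) := by
          rw [smul_smul, ← Complex.ofReal_mul, mul_inv_cancel₀ h0.ne', Complex.ofReal_one,
            one_smul]
        conv_lhs => rw [h3, hyw, Finset.smul_sum]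
        refine Finset.sum_congr rfl fun j _ => ?_
        rw [mul_smul_comm]
  choose w hw hyw using hall
  have hβ : ∀ l j, ‖w (α l) j‖ ≤ ((i : ℝ) + 1) ^ 2 := by
    intro l j
    calc ‖w (α l) j‖ ≤ ‖α l‖ * (2 * R) := hw _ _
      _ ≤ M * (2 * R) := mul_le_mul_of_nonneg_right (hα l) (by positivity)
      _ ≤ ((i : ℝ) + 1) ^ 2 := hb
  obtain ⟨v, hv, hvα⟩ := quasi_unit m (((i : ℝ) + 1) ^ 2) α (fun l j => w (α l) j)
    (by positivity) (fun l => by
      conv_lhs => rw [hyw (α l)]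
      exact Finset.sum_congr rfl fun j _ => mul_comm _ _) hβ
  have hv1 : v = 1 := by
    have h1 : v * (1 : Alg (D i)) = 1 := by
      rw [hyw 1, Finset.mul_sum]
      refine Finset.sum_congr rfl fun j _ => ?_
      rw [← mul_assoc, hvα j]
    rwa [mul_one] at h1
  rw [hv1, norm_def] at hv
  have hv' : (D i).n 1 ≤ P m (((i : ℝ) + 1) ^ 2) := hv
  have h2 := hD i
  have h3 : P m (((i : ℝ) + 1) ^ 2) ≤ ∑ m ∈ Finset.range (i + 1), P m (((i : ℝ) + 1) ^ 2) :=
    Finset.single_le_sum (f := fun m => P m (((i : ℝ) + 1) ^ 2))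
      (fun m _ => P_nonneg m _ (by positivity)) (Finset.mem_range.mpr (by omega))
  linarith

/-- sequences represented with `m` terms and the bound `N` -/
def Rep (A : Type) [NonUnitalNormedCommRing A] (m N : ℕ) : Set C₀(ℕ, A) :=
  {x | ∃ (a : Fin m → A) (b : Fin m → ℕ → A), (∀ j, ‖a j‖ ≤ N) ∧ (∀ j k, ‖b j k‖ ≤ N) ∧
    ∀ k, x k = ∑ j, a j * b j k}

/-- a sequence with finite support -/
noncomputable def fin {A : Type} [NonUnitalNormedCommRing A] (K : ℕ) (g : ℕ → A) : C₀(ℕ, A) where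
  toFun := fun k => if k < K then g k else 0
  continuous_toFun := continuous_of_discreteTopology
  zero_at_infty' := by
    rw [Filter.cocompact_eq_cofinite, Nat.cofinite_eq_atTop]
    apply tendsto_const_nhds.congr'
    filter_upwards [eventually_ge_atTop K] with k hk
    rw [if_neg (by omega)]

theorem nowhere (D : ℕ → Blk)
    (hD : ∀ i : ℕ, 1 + ∑ m ∈ Finset.range (i + 1), P m (((i : ℝ) + 1) ^ 2) ≤ (D i).n 1)
    (m N : ℕ) : IsNowhereDense (Rep (czero D) m N) := by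
  rw [IsNowhereDense, Set.eq_empty_iff_forall_notMem]
  intro y hy
  obtain ⟨r, hr, hball⟩ := Metric.isOpen_iff.1 isOpen_interior y hy
  have hcl : Metric.ball y r ⊆ closure (Rep (czero D) m N) := hball.trans interior_subset
  set ρ : ℝ := r / 2 with hρ
  have hρ0 : 0 < ρ := by positivity
  obtain ⟨i, hi⟩ := exists_nat_ge (max ((m + m : ℕ) : ℝ) ((N : ℝ) * (2 * (N / ρ))))
  have him : m + m ≤ i := by exact_mod_cast (le_max_left _ _).trans hi
  have hiM : (N : ℝ) * (2 * (N / ρ)) ≤ i := (le_max_right _ _).trans hi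
  have hi0 : (0 : ℝ) ≤ i := Nat.cast_nonneg i
  obtain ⟨F, hFfin, hF1, hFnet⟩ := exists_net4 (Alg (D i))
  -- enumerate the net
  have hF' : Finite F := hFfin.to_subtype
  obtain ⟨K, ⟨e⟩⟩ := Finite.exists_equiv_fin F
  let g : ℕ → czero D := fun k => if h : k < K then
    sing i (((ρ : ℝ) : ℂ) • (e.symm ⟨k, h⟩ : Alg (D i))) else 0
  set p : C₀(ℕ, czero D) := fin K g with hp
  have hpk : ∀ k, p k = if k < K then g k else 0 := fun k => rfl
  have hgn : ∀ k, ‖g k‖ ≤ ρ := by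
    intro k
    simp only [g]
    split_ifs with h
    · refine (norm_sing_le i _).trans ?_
      rw [norm_smul, Complex.norm_real, Real.norm_of_nonneg hρ0.le]
      exact mul_le_of_le_one_right hρ0.le (hF1 _ (e.symm ⟨k, h⟩).2)
    · simpa using hρ0.le
  have hpn : ∀ k, ‖p k‖ ≤ ρ := by
    intro k
    rw [hpk]
    split_ifs
    · exact hgn k
    · simpa using hρ0.le
  have hd : dist (y + p) y ≤ ρ := by
    rw [← ZeroAtInftyContinuousMap.dist_toBCF_eq_dist, BoundedContinuousFunction.dist_le hρ0.le]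
    intro k
    show dist (y k + p k) (y k) ≤ ρ
    rw [dist_eq_norm, add_sub_cancel_left]
    exact hpn k
  have hyp : y + p ∈ closure (Rep (czero D) m N) := by
    apply hcl
    rw [Metric.mem_ball]
    linarith
  have hy0 : y ∈ closure (Rep (czero D) m N) := hcl (Metric.mem_ball_self hr)
  obtain ⟨x, ⟨a, b, ha, hb, hx⟩, hxd⟩ := Metric.mem_closure_iff.1 hyp (ρ / 8) (by positivity)
  obtain ⟨x', ⟨a', b', ha', hb', hx'⟩, hxd'⟩ := Metric.mem_closure_iff.1 hy0 (ρ / 8) (by positivity)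
  have hk1 : ∀ k, ‖(y k + p k) - x k‖ ≤ ρ / 8 := by
    intro k
    have h1 := BoundedContinuousFunction.dist_coe_le_dist (f := (y + p).toBCF) (g := x.toBCF) k
    rw [ZeroAtInftyContinuousMap.dist_toBCF_eq_dist] at h1
    have h2 : dist (y k + p k) (x k) ≤ dist (y + p) x := h1
    rw [dist_eq_norm] at h2
    exact h2.trans hxd.le
  have hk2 : ∀ k, ‖y k - x' k‖ ≤ ρ / 8 := by
    intro k
    have h1 := BoundedContinuousFunction.dist_coe_le_dist (f := y.toBCF) (g := x'.toBCF) k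
    rw [ZeroAtInftyContinuousMap.dist_toBCF_eq_dist] at h1
    have h2 : dist (y k) (x' k) ≤ dist y x' := h1
    rw [dist_eq_norm] at h2
    exact h2.trans hxd'.le
  let α : Fin (m + m) → Alg (D i) := Fin.append (fun j => (a j : Big D) i) fun j => (a' j : Big D) i
  have hα : ∀ j, ‖α j‖ ≤ N := by
    intro j
    refine Fin.addCases (fun j => ?_) (fun j => ?_) j
    · simp only [α, Fin.append_left]
      exact (norm_coord_le (a j) i).trans (ha j)
    · simp only [α, Fin.append_right]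
      exact (norm_coord_le (a' j) i).trans (ha' j)
  have hR : (0 : ℝ) ≤ N / ρ := by positivity
  refine core D hD i (m + m) him α N (N / ρ) hR hα
    {f | ∃ w : Fin (m + m) → Alg (D i), (∀ j, ‖w j‖ ≤ N / ρ) ∧ f = ∑ j, α j * w j} ?_
    (fun f hf => hf) (by nlinarith)
  intro z hz
  obtain ⟨f, hfF, hzf⟩ := hFnet z hz
  -- the index of `f`
  set k : Fin K := e ⟨f, hfF⟩ with hk
  let w : Fin (m + m) → Alg (D i) := Fin.append
    (fun j => (((ρ⁻¹ : ℝ)) : ℂ) • (b j k : Big D) i) fun j => -((((ρ⁻¹ : ℝ)) : ℂ) • (b' j k : Big D) i)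
  have hw : ∀ j, ‖w j‖ ≤ N / ρ := by
    intro j
    refine Fin.addCases (fun j => ?_) (fun j => ?_) j
    · simp only [w, Fin.append_left]
      rw [norm_smul, Complex.norm_real, Real.norm_of_nonneg (inv_nonneg.2 hρ0.le), inv_mul_eq_div]
      exact div_le_div_of_nonneg_right ((norm_coord_le (b j k) i).trans (hb j k)) hρ0.le
    · simp only [w, Fin.append_right]
      rw [norm_neg, norm_smul, Complex.norm_real, Real.norm_of_nonneg (inv_nonneg.2 hρ0.le),
        inv_mul_eq_div]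
      exact div_le_div_of_nonneg_right ((norm_coord_le (b' j k) i).trans (hb' j k)) hρ0.le
  refine ⟨_, ⟨w, hw, rfl⟩, ?_⟩
  have hsum : ∑ j, α j * w j = (((ρ⁻¹ : ℝ)) : ℂ) • (((x k - x' k : czero D) : Big D) i) := by
    rw [Fin.sum_univ_add]
    simp only [α, w, Fin.append_left, Fin.append_right]
    rw [sub_coord, hx, hx', sum_coord, sum_coord, smul_sub, Finset.smul_sum, Finset.smul_sum,
      sub_eq_add_neg, ← Finset.sum_neg_distrib]
    congr 1
    · refine Finset.sum_congr rfl fun j _ => ?_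
      rw [mul_coord, mul_smul_comm]
    · refine Finset.sum_congr rfl fun j _ => ?_
      rw [mul_coord, mul_neg, mul_smul_comm]
  have hpf : ((p k : czero D) : Big D) i = ((ρ : ℝ) : ℂ) • f := by
    rw [hpk, if_pos k.2]
    simp only [g]
    rw [dif_pos k.2, sing_self]
    have : e.symm ⟨(k : ℕ), k.2⟩ = ⟨f, hfF⟩ := by
      rw [hk]; simp
    rw [this]
  have herr : ‖f - ∑ j, α j * w j‖ ≤ 1 / 4 := by
    have e1 : f - ∑ j, α j * w j =
        (((ρ⁻¹ : ℝ)) : ℂ) • (((p k - (x k - x' k) : czero D) : Big D) i) := by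
      have e0 : (((p k - (x k - x' k) : czero D) : Big D) i) =
          ((p k : czero D) : Big D) i - ((x k - x' k : czero D) : Big D) i := sub_coord _ _ _
      rw [hsum, e0, hpf, smul_sub, smul_smul, ← Complex.ofReal_mul,
        inv_mul_cancel₀ hρ0.ne', Complex.ofReal_one, one_smul]
    have e2 : p k - (x k - x' k) = ((y k + p k) - x k) - (y k - x' k) := by abel
    rw [e1, norm_smul, Complex.norm_real, Real.norm_of_nonneg (inv_nonneg.2 hρ0.le)]
    have e3 : ‖(((p k - (x k - x' k) : czero D) : Big D) i)‖ ≤ ρ / 4 := by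
      refine (norm_coord_le _ i).trans ?_
      rw [e2]
      refine (norm_sub_le _ _).trans ?_
      linarith [hk1 k, hk2 k]
    rw [inv_mul_le_iff₀ hρ0]
    linarith
  calc ‖z - ∑ j, α j * w j‖ = ‖(z - f) + (f - ∑ j, α j * w j)‖ := by congr 1; abel
    _ ≤ ‖z - f‖ + ‖f - ∑ j, α j * w j‖ := norm_add_le _ _
    _ ≤ 1 / 2 := by linarith

/-- **`A · ℓ^∞(A)` is meagre in `c₀(A)`.** There is a commutative separable complex Banach algebra
`A` in which every element is a product of two elements (so `A = A^2`) such that the set of the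
null sequences `x` of the form `x k = ∑ j, a j * b j k` with finitely many `a j` in `A` and BOUNDED
sequences `b j` is meagre (of the first Baire category) in the Banach space `c₀(A)`; the smaller set
`A · c₀(A)` is then meagre too. In particular some null sequence is not of this form. -/
theorem result : ∃ (A : Type) (_ : NonUnitalNormedCommRing A) (_ : NormedSpace ℂ A)
    (_ : IsScalarTower ℂ A A) (_ : SMulCommClass ℂ A A) (_ : CompleteSpace A)
    (_ : SeparableSpace A),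
    Submodule.span ℂ {x : A | ∃ b c : A, x = b * c} = ⊤ ∧
    (∀ a : A, ∃ b c : A, a = b * c) ∧
    IsMeagre {x : C₀(ℕ, A) | ∃ (m : ℕ) (a : Fin m → A) (b : Fin m → ℕ → A),
      (∀ j, ∃ C : ℝ, ∀ k, ‖b j k‖ ≤ C) ∧ ∀ k, x k = ∑ j, a j * b j k} ∧
    IsMeagre {x : C₀(ℕ, A) | ∃ (m : ℕ) (a : Fin m → A) (b : Fin m → ℕ → A),
      (∀ j, Tendsto (b j) atTop (𝓝 0)) ∧ ∀ k, x k = ∑ j, a j * b j k} ∧
    ∃ x : ℕ → A, Tendsto x atTop (𝓝 0) ∧
      (∀ (m : ℕ) (a : Fin m → A) (b : Fin m → ℕ → A), (∀ j, Tendsto (b j) atTop (𝓝 0)) →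
        ¬ ∀ k, x k = ∑ j, a j * b j k) ∧
      ∀ (m : ℕ) (a : Fin m → A) (b : Fin m → ℕ → A), (∀ j, ∃ C : ℝ, ∀ k, ‖b j k‖ ≤ C) →
        ¬ ∀ k, x k = ∑ j, a j * b j k := by
  have hex : ∀ i : ℕ, ∃ B : Blk,
      1 + ∑ m ∈ Finset.range (i + 1), P m (((i : ℝ) + 1) ^ 2) ≤ B.n 1 := by
    intro i
    obtain ⟨K, hK⟩ := exists_nat_ge (1 + ∑ m ∈ Finset.range (i + 1), P m (((i : ℝ) + 1) ^ 2))
    obtain ⟨B, hB⟩ := exists_blk K
    exact ⟨B, hK.trans hB⟩
  choose D hD using hex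
  obtain ⟨x, hx0, hx⟩ := no_rep D hD
  have hmg : IsMeagre {x : C₀(ℕ, czero D) | ∃ (m : ℕ) (a : Fin m → czero D)
      (b : Fin m → ℕ → czero D),
      (∀ j, ∃ C : ℝ, ∀ k, ‖b j k‖ ≤ C) ∧ ∀ k, x k = ∑ j, a j * b j k} := by
    have h1 : IsMeagre (⋃ q : ℕ × ℕ, Rep (czero D) q.1 q.2) :=
      isMeagre_iUnion fun q => (nowhere D hD q.1 q.2).isMeagre
    refine h1.mono ?_
    rintro z ⟨m, a, b, hb, hz⟩
    choose c hc using hb
    obtain ⟨N, hN⟩ := exists_nat_ge (∑ j, ‖a j‖ + ∑ j, |c j|)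
    have s1 : 0 ≤ ∑ j, ‖a j‖ := Finset.sum_nonneg fun j _ => norm_nonneg _
    have s2 : 0 ≤ ∑ j, |c j| := Finset.sum_nonneg fun j _ => abs_nonneg _
    refine Set.mem_iUnion.2 ⟨(m, N), a, b, fun j => ?_, fun j k => ?_, hz⟩
    · have := Finset.single_le_sum (f := fun j => ‖a j‖) (fun j _ => norm_nonneg _)
        (Finset.mem_univ j)
      simp only at this
      linarith
    · have := Finset.single_le_sum (f := fun j => |c j|) (fun j _ => abs_nonneg _)
        (Finset.mem_univ j)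
      simp only at this
      have h2 := hc j k
      have h3 := le_abs_self (c j)
      linarith
  refine ⟨czero D, inferInstance, inferInstance, inferInstance, inferInstance, inferInstance,
    separable_czero, ?_, factor_czero, hmg, hmg.mono ?_, x, hx0, ?_, hx⟩
  · rw [eq_top_iff]
    intro a _
    exact Submodule.subset_span (factor_czero a)
  · rintro z ⟨m, a, b, hb, hz⟩
    refine ⟨m, a, b, fun j => ?_, hz⟩
    obtain ⟨C, hC⟩ := (hb j).norm.bddAbove_range
    exact ⟨C, fun k => hC ⟨k, rfl⟩⟩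
  · intro m a b hb
    refine hx m a b fun j => ?_
    obtain ⟨C, hC⟩ := (hb j).norm.bddAbove_range
    exact ⟨C, fun k => hC ⟨k, rfl⟩⟩

end Pool.Agent.Results.MP_bc5e3f_an.Meagre
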